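import Pool.Agent.Helper10.Ram5.Lib

set_option autoImplicit false

/-!
# The radial inequality in the strip for hyperbolic 5-space (module S)
-/

namespace Pool.Agent.Helper47.Ram5

open MeasureTheory Set Filter Topology Pool.Agent.Helper10.Ram5
open scoped Quaternion

section piece

variable {g g' : ℝ → ℂ}

/-- the boundary term -/
noncomputable def bd (p0 p1 t0 t1 : ℝ) (g : ℝ → ℂ) (r : ℝ) : ℝ :=
  (p0 - p1 / r) * (t0 + t1 * r) / r ^ 4 * ‖g r‖ ^ 2

theorem hasDerivAt_normSq {r : ℝ} (hg : HasDerivAt g (g' r) r) :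
    HasDerivAt (fun x => ‖g x‖ ^ 2) (2 * (inner ℝ (g r) (g' r) : ℝ)) r := by
  have := hg.norm_sq
  exact this

theorem hasDerivAt_bd (p0 p1 t0 t1 : ℝ) {r : ℝ} (hr : 0 < r) (hg : HasDerivAt g (g' r) r) :
    HasDerivAt (bd p0 p1 t0 t1 g)
      ((p1 / r ^ 2 * (t0 + t1 * r) / r ^ 4 + (p0 - p1 / r) * t1 / r ^ 4
          - 4 * (p0 - p1 / r) * (t0 + t1 * r) / r ^ 5) * ‖g r‖ ^ 2
        + (p0 - p1 / r) * (t0 + t1 * r) / r ^ 4 * (2 * (inner ℝ (g r) (g' r) : ℝ))) r := by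
  have hr' : r ≠ 0 := hr.ne'
  have h1 : HasDerivAt (fun x : ℝ => p0 - p1 / x) (p1 / r ^ 2) r := by
    have := ((hasDerivAt_const r p1).div (hasDerivAt_id r) hr').const_sub p0
    convert! this using 1
    simp only [id]
    ring
  have h2 : HasDerivAt (fun x : ℝ => t0 + t1 * x) t1 r := by
    have := ((hasDerivAt_id r).const_mul t1).const_add t0
    simpa using this
  have h3 : HasDerivAt (fun x : ℝ => (p0 - p1 / x) * (t0 + t1 * x) / x ^ 4)
      (p1 / r ^ 2 * (t0 + t1 * r) / r ^ 4 + (p0 - p1 / r) * t1 / r ^ 4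
          - 4 * (p0 - p1 / r) * (t0 + t1 * r) / r ^ 5) r := by
    have h5 : HasDerivAt (fun x : ℝ => (p0 - p1 / x) * (t0 + t1 * x))
        (p1 / r ^ 2 * (t0 + t1 * r) + (p0 - p1 / r) * t1) r := h1.mul h2
    have h6 : HasDerivAt (fun x : ℝ => x ^ 4) (4 * r ^ 3) r := by
      have := hasDerivAt_pow 4 r
      simpa using this
    have h4 : HasDerivAt (fun x : ℝ => (p0 - p1 / x) * (t0 + t1 * x) / x ^ 4)
      (((p1 / r ^ 2 * (t0 + t1 * r) + (p0 - p1 / r) * t1) * r ^ 4 -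
        ((p0 - p1 / r) * (t0 + t1 * r)) * (4 * r ^ 3)) / (r ^ 4) ^ 2) r :=
      h5.div h6 (by positivity)
    convert! h4 using 1
    field_simp
  exact h3.mul (hasDerivAt_normSq hg)

theorem pointwise (p0 p1 t0 t1 μ : ℝ) {r : ℝ} (hr : 0 < r) (hP : 0 ≤ p0 - p1 / r) :
    qq p0 p1 t0 t1 μ r * (r ^ 5)⁻¹ * ‖g r‖ ^ 2 +
      ((p1 / r ^ 2 * (t0 + t1 * r) / r ^ 4 + (p0 - p1 / r) * t1 / r ^ 4
          - 4 * (p0 - p1 / r) * (t0 + t1 * r) / r ^ 5) * ‖g r‖ ^ 2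
        + (p0 - p1 / r) * (t0 + t1 * r) / r ^ 4 * (2 * (inner ℝ (g r) (g' r) : ℝ)))
      ≤ (p0 - p1 / r) * (r ^ 5)⁻¹ * (r ^ 2 * (‖g' r‖ ^ 2 + μ * ‖g r‖ ^ 2)) := by
  have hr' : r ≠ 0 := hr.ne'
  set T := (t0 + t1 * r) / r with hT
  have h1 : 0 ≤ ‖g' r - T • g r‖ ^ 2 := by positivity
  have h2 : ‖g' r - T • g r‖ ^ 2 = ‖g' r‖ ^ 2 - 2 * T * (inner ℝ (g r) (g' r) : ℝ) +
      T ^ 2 * ‖g r‖ ^ 2 := by
    rw [norm_sub_sq_real, real_inner_smul_right, norm_smul, mul_pow, Real.norm_eq_abs, sq_abs,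
      real_inner_comm]
    ring
  have h3 : 0 ≤ (p0 - p1 / r) / r ^ 3 * (‖g' r‖ ^ 2 - 2 * T * (inner ℝ (g r) (g' r) : ℝ) +
      T ^ 2 * ‖g r‖ ^ 2) := by
    rw [← h2]; positivity
  have h4 : (p0 - p1 / r) * (r ^ 5)⁻¹ * (r ^ 2 * (‖g' r‖ ^ 2 + μ * ‖g r‖ ^ 2)) -
      (qq p0 p1 t0 t1 μ r * (r ^ 5)⁻¹ * ‖g r‖ ^ 2 +
      ((p1 / r ^ 2 * (t0 + t1 * r) / r ^ 4 + (p0 - p1 / r) * t1 / r ^ 4
          - 4 * (p0 - p1 / r) * (t0 + t1 * r) / r ^ 5) * ‖g r‖ ^ 2
        + (p0 - p1 / r) * (t0 + t1 * r) / r ^ 4 * (2 * (inner ℝ (g r) (g' r) : ℝ)))) =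
      (p0 - p1 / r) / r ^ 3 * (‖g' r‖ ^ 2 - 2 * T * (inner ℝ (g r) (g' r) : ℝ) +
      T ^ 2 * ‖g r‖ ^ 2) := by
    rw [hT]
    unfold qq
    field_simp
    ring
  linarith

theorem piece (p0 p1 t0 t1 μ : ℝ) {x y : ℝ} (hx : 0 < x) (hxy : x ≤ y)
    (hg : ∀ r, 0 < r → HasDerivAt g (g' r) r) (hgc : ContinuousOn g' (Ioi 0))
    (hP : ∀ r ∈ Icc x y, 0 ≤ p0 - p1 / r) :
    (∫ r in x..y, qq p0 p1 t0 t1 μ r * (r ^ 5)⁻¹ * ‖g r‖ ^ 2) +
      (bd p0 p1 t0 t1 g y - bd p0 p1 t0 t1 g x)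
      ≤ ∫ r in x..y, (p0 - p1 / r) * (r ^ 5)⁻¹ * (r ^ 2 * (‖g' r‖ ^ 2 + μ * ‖g r‖ ^ 2)) := by
  have hsub : Icc x y ⊆ Ioi 0 := fun r hr => lt_of_lt_of_le hx hr.1
  have hgc0 : ContinuousOn g (Icc x y) := fun r hr =>
    (hg r (hsub hr)).continuousAt.continuousWithinAt
  have hgc1 : ContinuousOn g' (Icc x y) := hgc.mono hsub
  have hne : ∀ r ∈ Icc x y, r ≠ 0 := fun r hr => (hsub hr).ne'
  have hinv : ContinuousOn (fun r : ℝ => p1 / r) (Icc x y) :=
    continuousOn_const.div continuousOn_id hne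
  have hinv3 : ContinuousOn (fun r : ℝ => (r ^ 5)⁻¹) (Icc x y) :=
    (continuousOn_id.pow 5).inv₀ fun r hr => pow_ne_zero _ (hne r hr)
  have hd2 : ContinuousOn (fun r : ℝ => r ^ 2) (Icc x y) := continuousOn_id.pow 2
  have hlin : ContinuousOn (fun r : ℝ => t0 + t1 * r) (Icc x y) := by fun_prop
  have hPc : ContinuousOn (fun r : ℝ => p0 - p1 / r) (Icc x y) := continuousOn_const.sub hinv
  have hn : ContinuousOn (fun r => ‖g r‖ ^ 2) (Icc x y) := hgc0.norm.pow 2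
  have hn' : ContinuousOn (fun r => ‖g' r‖ ^ 2) (Icc x y) := hgc1.norm.pow 2
  have hin : ContinuousOn (fun r => (inner ℝ (g r) (g' r) : ℝ)) (Icc x y) := hgc0.inner hgc1
  have hqq : ContinuousOn (fun r => qq p0 p1 t0 t1 μ r * (r ^ 5)⁻¹ * ‖g r‖ ^ 2) (Icc x y) := by
    apply (ContinuousOn.mul _ hinv3).mul hn
    unfold qq
    apply (hPc.mul _).sub (hinv.mul hlin)
    fun_prop
  have hd4 : ContinuousOn (fun r : ℝ => r ^ 4) (Icc x y) := continuousOn_id.pow 4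
  have hder : ContinuousOn (fun r => (p1 / r ^ 2 * (t0 + t1 * r) / r ^ 4
          + (p0 - p1 / r) * t1 / r ^ 4
          - 4 * (p0 - p1 / r) * (t0 + t1 * r) / r ^ 5) * ‖g r‖ ^ 2
        + (p0 - p1 / r) * (t0 + t1 * r) / r ^ 4 * (2 * (inner ℝ (g r) (g' r) : ℝ)))
        (Icc x y) := by
    have e2 : ∀ r ∈ Icc x y, r ^ 2 ≠ 0 := fun r hr => pow_ne_zero _ (hne r hr)
    have e4 : ∀ r ∈ Icc x y, r ^ 4 ≠ 0 := fun r hr => pow_ne_zero _ (hne r hr)
    have e5 : ∀ r ∈ Icc x y, r ^ 5 ≠ 0 := fun r hr => pow_ne_zero _ (hne r hr)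
    apply ContinuousOn.add
    · apply ContinuousOn.mul _ hn
      apply ContinuousOn.sub
      · apply ContinuousOn.add
        · exact (((continuousOn_const.div hd2 e2).mul hlin).div hd4 e4)
        · exact (hPc.mul continuousOn_const).div hd4 e4
      · exact ((continuousOn_const.mul hPc).mul hlin).div (continuousOn_id.pow 5) e5
    · exact ((hPc.mul hlin).div hd4 e4).mul (continuousOn_const.mul hin)
  have hR : ContinuousOn (fun r => (p0 - p1 / r) * (r ^ 5)⁻¹ *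
      (r ^ 2 * (‖g' r‖ ^ 2 + μ * ‖g r‖ ^ 2))) (Icc x y) :=
    (hPc.mul hinv3).mul (hd2.mul (hn'.add (continuousOn_const.mul hn)))
  have i1 := hqq.intervalIntegrable_of_Icc (μ := volume) hxy
  have i2 := hder.intervalIntegrable_of_Icc (μ := volume) hxy
  have i3 := hR.intervalIntegrable_of_Icc (μ := volume) hxy
  have hftc := intervalIntegral.integral_eq_sub_of_hasDerivAt
    (f := bd p0 p1 t0 t1 g) (a := x) (b := y) (fun r hr => by
      rw [uIcc_of_le hxy] at hr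
      exact hasDerivAt_bd (g' := g') p0 p1 t0 t1 (hsub hr) (hg r (hsub hr))) i2
  rw [← hftc, ← intervalIntegral.integral_add i1 i2]
  apply intervalIntegral.integral_mono_on hxy (i1.add i2) i3
  intro r hr
  exact pointwise p0 p1 t0 t1 μ (hsub hr) (hP r hr)

end piece


theorem bd_lower {g : ℝ → ℂ} {m t0 t1 B R : ℝ} (hm : 0 ≤ m) (hR : 1 ≤ R) (hB : ‖g R‖ ≤ B) :
    -(m * (|t0| + |t1|) * B ^ 2 / R) ≤ bd m 0 t0 t1 g R := by
  have hR0 : 0 < R := by linarith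
  unfold bd
  rw [zero_div, sub_zero]
  have h1 : -((|t0| + |t1|) * R) ≤ t0 + t1 * R := by
    have a1 := neg_abs_le t0
    have a2 := neg_abs_le t1
    have a3 := abs_nonneg t0
    have a4 := abs_nonneg t1
    nlinarith
  have h2 : ‖g R‖ ^ 2 ≤ B ^ 2 := pow_le_pow_left₀ (norm_nonneg _) hB 2
  have h3 : 0 ≤ ‖g R‖ ^ 2 := by positivity
  have h4 : -(m * ((|t0| + |t1|) * R)) / R ^ 4 ≤ m * (t0 + t1 * R) / R ^ 4 := by
    apply div_le_div_of_nonneg_right _ (by positivity)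
    nlinarith
  have h5 : -(m * (|t0| + |t1|) / R) ≤ -(m * ((|t0| + |t1|) * R)) / R ^ 4 := by
    have e1 : -(m * ((|t0| + |t1|) * R)) / R ^ 4 = -(m * (|t0| + |t1|) / R ^ 3) := by
      field_simp
    rw [e1]
    have e2 : m * (|t0| + |t1|) / R ^ 3 ≤ m * (|t0| + |t1|) / R := by
      apply div_le_div_of_nonneg_left (by positivity) hR0
      nlinarith [mul_pos hR0 hR0, mul_le_mul_of_nonneg_left hR hR0.le]
    linarith
  have h4' := h5.trans h4
  have h6 : -(m * (|t0| + |t1|) / R) * ‖g R‖ ^ 2 ≤ m * (t0 + t1 * R) / R ^ 4 * ‖g R‖ ^ 2 :=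
    mul_le_mul_of_nonneg_right h4' h3
  refine le_trans ?_ h6
  have h7 : 0 ≤ m * (|t0| + |t1|) / R := by positivity
  have h8 : m * (|t0| + |t1|) * B ^ 2 / R = m * (|t0| + |t1|) / R * B ^ 2 := by ring
  rw [h8]
  nlinarith

section

variable {g g' : ℝ → ℂ} {ψ Q : ℝ → ℝ} {μ : ℝ}

theorem gpiece (hμ : 0 ≤ μ) (hψ0 : ∀ r, 0 < r → 0 ≤ ψ r) (p0 p1 t0 t1 : ℝ) {x y : ℝ} (hx : 0 < x)
    (hxy : x ≤ y) (hg : ∀ r, 0 < r → HasDerivAt g (g' r) r) (hgc : ContinuousOn g' (Ioi 0))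
    (hP : ∀ r ∈ Icc x y, ψ r = p0 - p1 / r) (hQ0 : ∀ r, 0 < r → 0 ≤ Q r)
    (hQ : ∀ r ∈ Ioo x y, Q r ≤ qq p0 p1 t0 t1 μ r) :
    ∃ I J : ℝ, ∫⁻ r in Ioc x y, ENNReal.ofReal (gL Q g r) ≤ ENNReal.ofReal I ∧ 0 ≤ I ∧ 0 ≤ J ∧
      ENNReal.ofReal J ≤ ∫⁻ r in Ioc x y, ENNReal.ofReal (gR ψ μ g g' r) ∧
      I + (bd p0 p1 t0 t1 g y - bd p0 p1 t0 t1 g x) ≤ J := by
  have hsub : Icc x y ⊆ Ioi 0 := fun r hr => lt_of_lt_of_le hx hr.1
  have hP0 : ∀ r ∈ Icc x y, 0 ≤ p0 - p1 / r := fun r hr => by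
    rw [← hP r hr]; exact hψ0 r (hsub hr)
  have hmain := piece p0 p1 t0 t1 μ hx hxy hg hgc hP0
  have hgc0 : ContinuousOn g (Icc x y) := fun r hr =>
    (hg r (hsub hr)).continuousAt.continuousWithinAt
  have hgc1 : ContinuousOn g' (Icc x y) := hgc.mono hsub
  have hne : ∀ r ∈ Icc x y, r ≠ 0 := fun r hr => (hsub hr).ne'
  have hinv : ContinuousOn (fun r : ℝ => p1 / r) (Icc x y) :=
    continuousOn_const.div continuousOn_id hne
  have hinv3 : ContinuousOn (fun r : ℝ => (r ^ 5)⁻¹) (Icc x y) :=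
    (continuousOn_id.pow 5).inv₀ fun r hr => pow_ne_zero _ (hne r hr)
  have hd2 : ContinuousOn (fun r : ℝ => r ^ 2) (Icc x y) := continuousOn_id.pow 2
  have hlin : ContinuousOn (fun r : ℝ => t0 + t1 * r) (Icc x y) := by fun_prop
  have hPc : ContinuousOn (fun r : ℝ => p0 - p1 / r) (Icc x y) := continuousOn_const.sub hinv
  have hn : ContinuousOn (fun r => ‖g r‖ ^ 2) (Icc x y) := hgc0.norm.pow 2
  have hn' : ContinuousOn (fun r => ‖g' r‖ ^ 2) (Icc x y) := hgc1.norm.pow 2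
  have hqq : ContinuousOn (fun r => qq p0 p1 t0 t1 μ r * (r ^ 5)⁻¹ * ‖g r‖ ^ 2) (Icc x y) := by
    apply (ContinuousOn.mul _ hinv3).mul hn
    unfold qq
    apply (hPc.mul _).sub (hinv.mul hlin)
    fun_prop
  have hR : ContinuousOn (fun r => (p0 - p1 / r) * (r ^ 5)⁻¹ *
      (r ^ 2 * (‖g' r‖ ^ 2 + μ * ‖g r‖ ^ 2))) (Icc x y) :=
    (hPc.mul hinv3).mul (hd2.mul (hn'.add (continuousOn_const.mul hn)))
  have i1 : IntegrableOn (fun r => qq p0 p1 t0 t1 μ r * (r ^ 5)⁻¹ * ‖g r‖ ^ 2) (Ioc x y) :=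
    (hqq.integrableOn_compact isCompact_Icc).mono_set Ioc_subset_Icc_self
  have i3 : IntegrableOn (fun r => (p0 - p1 / r) * (r ^ 5)⁻¹ *
      (r ^ 2 * (‖g' r‖ ^ 2 + μ * ‖g r‖ ^ 2))) (Ioc x y) :=
    (hR.integrableOn_compact isCompact_Icc).mono_set Ioc_subset_Icc_self
  have hae : ∀ᵐ r ∂(volume.restrict (Ioc x y)), r ∈ Ioo x y := by
    rw [← restrict_Ioo_eq_restrict_Ioc]
    exact ae_restrict_mem measurableSet_Ioo
  have hn0 : ∀ r ∈ Ioo x y, 0 ≤ qq p0 p1 t0 t1 μ r * (r ^ 5)⁻¹ * ‖g r‖ ^ 2 := by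
    intro r hr
    have hr0 : 0 < r := hx.trans hr.1
    have h1 := (hQ0 r hr0).trans (hQ r hr)
    positivity
  have hn1 : ∀ r ∈ Ioo x y, 0 ≤ (p0 - p1 / r) * (r ^ 5)⁻¹ *
      (r ^ 2 * (‖g' r‖ ^ 2 + μ * ‖g r‖ ^ 2)) := by
    intro r hr
    have hr0 : 0 < r := hx.trans hr.1
    have h1 := hP0 r (Ioo_subset_Icc_self hr)
    positivity
  refine ⟨_, _, ?_, ?_, ?_, ?_, hmain⟩
  · rw [intervalIntegral.integral_of_le hxy, ofReal_integral_eq_lintegral_ofReal i1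
      (by filter_upwards [hae] with r hr using hn0 r hr)]
    apply lintegral_mono_ae
    filter_upwards [hae] with r hr
    apply ENNReal.ofReal_le_ofReal
    unfold gL
    have hr0 : 0 < r := hx.trans hr.1
    have h2 := hQ r hr
    gcongr
  · rw [intervalIntegral.integral_of_le hxy]
    apply integral_nonneg_of_ae
    filter_upwards [hae] with r hr using hn0 r hr
  · rw [intervalIntegral.integral_of_le hxy]
    apply integral_nonneg_of_ae
    filter_upwards [hae] with r hr using hn1 r hr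
  · rw [intervalIntegral.integral_of_le hxy, ofReal_integral_eq_lintegral_ofReal i3
      (by filter_upwards [hae] with r hr using hn1 r hr)]
    apply lintegral_mono_ae
    filter_upwards [hae] with r hr
    apply ENNReal.ofReal_le_ofReal
    unfold gR
    rw [hP r (Ioo_subset_Icc_self hr)]

/-- one more piece to the left -/
theorem Tail.cons (hμ : 0 ≤ μ) (hψ0 : ∀ r, 0 < r → 0 ≤ ψ r) (hQ0 : ∀ r, 0 < r → 0 ≤ Q r)
    {x y Tx Ty : ℝ} (p0 p1 t0 t1 : ℝ) (hx : 0 < x) (hxy : x ≤ y)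
    (hTx : Tx = t0 + t1 * x) (hTy : Ty = t0 + t1 * y)
    (hP : ∀ r ∈ Icc x y, ψ r = p0 - p1 / r)
    (hQ : ∀ r ∈ Ioo x y, Q r ≤ qq p0 p1 t0 t1 μ r)
    (hT : Tail ψ Q μ y Ty) : Tail ψ Q μ x Tx := by
  intro g g' B hg hgc hB
  obtain ⟨I, J, a1, a2, a3, a4, a5⟩ := gpiece (g := g) (g' := g') hμ hψ0 p0 p1 t0 t1 hx hxy
    hg hgc hP hQ0 hQ
  have h1 := hT g g' B hg hgc hB
  have ex : bd p0 p1 t0 t1 g x = bt ψ g x Tx := by
    unfold bd bt
    rw [hP x ⟨le_rfl, hxy⟩, hTx]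
  have ey : bd p0 p1 t0 t1 g y = bt ψ g y Ty := by
    unfold bd bt
    rw [hP y ⟨hxy, le_rfl⟩, hTy]
  rw [ex, ey] at a5
  set bx := bt ψ g x Tx with hbx
  set by' := bt ψ g y Ty with hby
  have hu : Ioi x = Ioc x y ∪ Ioi y := (Ioc_union_Ioi_eq_Ioi hxy).symm
  have hdisj : Disjoint (Ioc x y) (Ioi y) := by
    rw [Set.disjoint_left]
    intro r h1 h2
    exact absurd h1.2 (not_le.2 h2)
  have hL : ∫⁻ r in Ioi x, ENNReal.ofReal (gL Q g r) ≤
      ENNReal.ofReal I + ∫⁻ r in Ioi y, ENNReal.ofReal (gL Q g r) := by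
    rw [hu]
    exact (lintegral_union_le _ _ _).trans (add_le_add a1 le_rfl)
  have hRr : ENNReal.ofReal J + ∫⁻ r in Ioi y, ENNReal.ofReal (gR ψ μ g g' r) ≤
      ∫⁻ r in Ioi x, ENNReal.ofReal (gR ψ μ g g' r) := by
    rw [hu, lintegral_union measurableSet_Ioi hdisj]
    exact add_le_add a4 le_rfl
  -- real inequality between parts
  have hreal : ENNReal.ofReal I + ENNReal.ofReal (-bx) + ENNReal.ofReal by' ≤
      ENNReal.ofReal J + ENNReal.ofReal bx + ENNReal.ofReal (-by') := by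
    have e1 : ∀ z : ℝ, ENNReal.ofReal z = ENNReal.ofReal (max z 0) := by
      intro z
      rcases le_total z 0 with h | h
      · rw [max_eq_right h, ENNReal.ofReal_of_nonpos h, ENNReal.ofReal_zero]
      · rw [max_eq_left h]
    rw [e1 (-bx), e1 by', e1 bx, e1 (-by'),
      ← ENNReal.ofReal_add a2 (le_max_right _ _),
      ← ENNReal.ofReal_add (add_nonneg a2 (le_max_right _ _)) (le_max_right _ _),
      ← ENNReal.ofReal_add a3 (le_max_right _ _),
      ← ENNReal.ofReal_add (add_nonneg a3 (le_max_right _ _)) (le_max_right _ _)]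
    apply ENNReal.ofReal_le_ofReal
    have m1 : max by' 0 - max (-by') 0 = by' := by
      rcases le_total by' 0 with h | h
      · rw [max_eq_right h, max_eq_left (by linarith)]; ring
      · rw [max_eq_left h, max_eq_right (by linarith)]; ring
    have m2 : max bx 0 - max (-bx) 0 = bx := by
      rcases le_total bx 0 with h | h
      · rw [max_eq_right h, max_eq_left (by linarith)]; ring
      · rw [max_eq_left h, max_eq_right (by linarith)]; ring
    linarith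
  have hfin : ENNReal.ofReal by' ≠ ⊤ := ENNReal.ofReal_ne_top
  rw [← ENNReal.add_le_add_iff_right hfin]
  calc (∫⁻ r in Ioi x, ENNReal.ofReal (gL Q g r)) + ENNReal.ofReal (-bx) + ENNReal.ofReal by'
      ≤ (ENNReal.ofReal I + ∫⁻ r in Ioi y, ENNReal.ofReal (gL Q g r)) + ENNReal.ofReal (-bx)
        + ENNReal.ofReal by' := by gcongr
    _ = (ENNReal.ofReal I + ENNReal.ofReal (-bx) + ENNReal.ofReal by') +
        ∫⁻ r in Ioi y, ENNReal.ofReal (gL Q g r) := by ring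
    _ ≤ (ENNReal.ofReal J + ENNReal.ofReal bx + ENNReal.ofReal (-by')) +
        ∫⁻ r in Ioi y, ENNReal.ofReal (gL Q g r) := by gcongr
    _ = ENNReal.ofReal J + ENNReal.ofReal bx +
        ((∫⁻ r in Ioi y, ENNReal.ofReal (gL Q g r)) + ENNReal.ofReal (-by')) := by ring
    _ ≤ ENNReal.ofReal J + ENNReal.ofReal bx +
        ((∫⁻ r in Ioi y, ENNReal.ofReal (gR ψ μ g g' r)) + ENNReal.ofReal by') := by gcongr
    _ = (ENNReal.ofReal J + ∫⁻ r in Ioi y, ENNReal.ofReal (gR ψ μ g g' r)) +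
        ENNReal.ofReal bx + ENNReal.ofReal by' := by ring
    _ ≤ _ := by gcongr

/-- the last piece -/
theorem Tail.last (hμ : 0 ≤ μ) (hψ0 : ∀ r, 0 < r → 0 ≤ ψ r) (hQ0 : ∀ r, 0 < r → 0 ≤ Q r)
    {x Tx m : ℝ} (t0 t1 : ℝ) (hx : 0 < x) (hTx : Tx = t0 + t1 * x)
    (hP : ∀ r, x ≤ r → ψ r = m) (hQ : ∀ r, x < r → Q r ≤ qq m 0 t0 t1 μ r) :
    Tail ψ Q μ x Tx := by
  intro g g' B hg hgc hB
  have hm : 0 ≤ m := by
    rw [← hP x le_rfl]; exact hψ0 x hx
  set K := m * (|t0| + |t1|) * B ^ 2 with hK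
  have ex : bd m 0 t0 t1 g x = bt ψ g x Tx := by
    unfold bd bt
    rw [hP x le_rfl, hTx]
    simp
  -- bounded version
  have hbdd : ∀ R : ℝ, 1 ≤ R → x ≤ R →
      (∫⁻ r in Ioc x R, ENNReal.ofReal (gL Q g r)) + ENNReal.ofReal (-bt ψ g x Tx) ≤
      (∫⁻ r in Ioi x, ENNReal.ofReal (gR ψ μ g g' r)) + ENNReal.ofReal (bt ψ g x Tx) +
        ENNReal.ofReal (K / R) := by
    intro R hR1 hR2
    obtain ⟨I, J, a1, a2, a3, a4, a5⟩ := gpiece (g := g) (g' := g') (ψ := ψ) hμ hψ0 m 0 t0 t1 hx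
      hR2 hg hgc (fun r hr => by rw [hP r hr.1]; simp) hQ0 (fun r hr => hQ r hr.1)
    have h2 := bd_lower (g := g) (t0 := t0) (t1 := t1) hm hR1 (hB R (by linarith))
    rw [ex] at a5
    set bx := bt ψ g x Tx
    have hK0 : 0 ≤ K / R := by rw [hK]; positivity
    have hRr : ENNReal.ofReal J ≤ ∫⁻ r in Ioi x, ENNReal.ofReal (gR ψ μ g g' r) :=
      a4.trans (lintegral_mono_set (fun r hr => hr.1))
    have e1 : ∀ z : ℝ, ENNReal.ofReal z = ENNReal.ofReal (max z 0) := by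
      intro z
      rcases le_total z 0 with h | h
      · rw [max_eq_right h, ENNReal.ofReal_of_nonpos h, ENNReal.ofReal_zero]
      · rw [max_eq_left h]
    have m2 : max bx 0 - max (-bx) 0 = bx := by
      rcases le_total bx 0 with h | h
      · rw [max_eq_right h, max_eq_left (by linarith)]; ring
      · rw [max_eq_left h, max_eq_right (by linarith)]; ring
    have hreal : ENNReal.ofReal I + ENNReal.ofReal (-bx) ≤
        ENNReal.ofReal J + ENNReal.ofReal bx + ENNReal.ofReal (K / R) := by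
      rw [e1 (-bx), e1 bx,
        ← ENNReal.ofReal_add a2 (le_max_right _ _),
        ← ENNReal.ofReal_add a3 (le_max_right _ _),
        ← ENNReal.ofReal_add (add_nonneg a3 (le_max_right _ _)) hK0]
      apply ENNReal.ofReal_le_ofReal
      rw [hK]
      linarith
    calc (∫⁻ r in Ioc x R, ENNReal.ofReal (gL Q g r)) + ENNReal.ofReal (-bx)
        ≤ ENNReal.ofReal I + ENNReal.ofReal (-bx) := by gcongr
      _ ≤ ENNReal.ofReal J + ENNReal.ofReal bx + ENNReal.ofReal (K / R) := hreal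
      _ ≤ _ := by gcongr
  -- limit
  set f : ℝ → ENNReal := fun r => ENNReal.ofReal (gL Q g r) with hf
  set ν := (volume : Measure ℝ).withDensity f with hν
  have hU : Ioi x = ⋃ n : ℕ, Ioc x (n : ℝ) := by
    ext r
    simp only [mem_Ioi, mem_iUnion, mem_Ioc]
    constructor
    · intro h
      obtain ⟨n, hn⟩ := exists_nat_ge r
      exact ⟨n, h, hn⟩
    · rintro ⟨n, h, _⟩
      exact h
  have hmono : Monotone (fun n : ℕ => Ioc x (n : ℝ)) := by
    intro n k hnk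
    apply Ioc_subset_Ioc_right
    exact_mod_cast hnk
  have h1 : Tendsto (fun n : ℕ => ν (Ioc x (n : ℝ))) atTop (𝓝 (ν (⋃ n : ℕ, Ioc x (n : ℝ)))) :=
    tendsto_measure_iUnion_atTop hmono
  rw [← hU, hν, withDensity_apply _ measurableSet_Ioi] at h1
  have h1' := h1.add_const (ENNReal.ofReal (-bt ψ g x Tx))
  have h2 : Tendsto (fun n : ℕ => (∫⁻ r in Ioi x, ENNReal.ofReal (gR ψ μ g g' r)) +
      ENNReal.ofReal (bt ψ g x Tx) + ENNReal.ofReal (K / (n:ℝ))) atTop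
      (𝓝 ((∫⁻ r in Ioi x, ENNReal.ofReal (gR ψ μ g g' r)) +
      ENNReal.ofReal (bt ψ g x Tx) + ENNReal.ofReal 0)) := by
    apply Tendsto.const_add
    apply ENNReal.tendsto_ofReal
    exact tendsto_const_div_atTop_nhds_zero_nat K
  rw [ENNReal.ofReal_zero, add_zero] at h2
  apply le_of_tendsto_of_tendsto h1' h2
  obtain ⟨n0, hn0⟩ := exists_nat_ge (max 1 x)
  filter_upwards [eventually_ge_atTop n0] with n hn
  have h3 : max 1 x ≤ (n:ℝ) := hn0.trans (by exact_mod_cast hn)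
  rw [withDensity_apply _ measurableSet_Ioc]
  exact hbdd n ((le_max_left _ _).trans h3) ((le_max_right _ _).trans h3)

/-- the one-dimensional inequality -/
theorem oneD_of_tail {x T : ℝ} (hx : 0 ≤ x) (hψx : ψ x = 0) (hQx : ∀ r, 0 < r → r < x → Q r = 0)
    (hT : Tail ψ Q μ x T) {B : ℝ} (hg : ∀ r, 0 < r → HasDerivAt g (g' r) r)
    (hgc : ContinuousOn g' (Ioi 0)) (hB : ∀ r, 0 < r → ‖g r‖ ≤ B) :
    ∫⁻ r in Ioi (0:ℝ), ENNReal.ofReal (gL Q g r) ≤
      ∫⁻ r in Ioi (0:ℝ), ENNReal.ofReal (gR ψ μ g g' r) := by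
  have h1 := hT g g' B hg hgc hB
  have h0 : bt ψ g x T = 0 := by unfold bt; rw [hψx]; simp
  rw [h0, neg_zero, ENNReal.ofReal_zero, add_zero, add_zero] at h1
  have hz : ∫⁻ r in Ioc 0 x, ENNReal.ofReal (gL Q g r) = 0 := by
    rw [← restrict_Ioo_eq_restrict_Ioc]
    rw [setLIntegral_congr_fun (g := fun _ => 0) measurableSet_Ioo]
    · simp
    intro r hr
    simp only [gL, hQx r hr.1 hr.2, zero_mul, ENNReal.ofReal_zero]
  rw [← Ioc_union_Ioi_eq_Ioi hx]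
  refine (lintegral_union_le _ _ _).trans ?_
  rw [hz, zero_add]
  refine h1.trans (lintegral_mono_set ?_)
  exact subset_union_right

end

section
variable {ν : ℍ[ℝ]} {u : Pt → ℂ}

theorem isOpen_UH : IsOpen UH := isOpen_lt continuous_const continuous_snd

theorem continuous_par : Continuous par := by
  let L : (Fin 4 → ℝ) →ₗ[ℝ] ℍ[ℝ] :=
    { toFun := par
      map_add' := by
        intro x y
        unfold par
        ext <;> simp <;> ring
      map_smul' := by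
        intro c x
        unfold par
        ext <;> simp <;> ring }
  exact L.continuous_of_finiteDimensional

/-- the point of the strip -/
noncomputable def ph (ν : ℍ[ℝ]) (x : ℝ × (Fin 4 → ℝ)) : Pt := (ν * par x.2, x.1)

theorem ph_cont (ν : ℍ[ℝ]) : Continuous (ph ν) := by
  unfold ph
  exact (continuous_const.mul (continuous_par.comp continuous_snd)).prodMk continuous_fst

theorem meas_ext {f : Pt → ℝ} (hf : ContinuousOn f UH) :
    Measurable (({x : ℝ × (Fin 4 → ℝ) | 0 < x.1}).indicator (fun x => f (ph ν x))) := by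
  classical
  have hS : IsOpen {x : ℝ × (Fin 4 → ℝ) | 0 < x.1} := isOpen_lt continuous_const continuous_fst
  have h1 : ContinuousOn (fun x => f (ph ν x)) {x : ℝ × (Fin 4 → ℝ) | 0 < x.1} :=
    hf.comp (ph_cont ν).continuousOn (fun x hx => hx)
  have h2 := h1.measurable_piecewise (g := fun _ => (0:ℝ)) continuousOn_const hS.measurableSet
  convert h2 using 1
  ext x
  by_cases hx : x ∈ {x : ℝ × (Fin 4 → ℝ) | 0 < x.1}
  · rw [indicator_of_mem hx, piecewise_eq_of_mem _ _ _ hx]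
  · rw [indicator_of_notMem hx, piecewise_eq_of_notMem _ _ _ hx]

theorem dir_four : dir 4 = ((0 : ℍ[ℝ]), (1 : ℝ)) := rfl

/-- the strip inequality for general weights -/
theorem strip_of_tail {ψ Q : ℝ → ℝ} {μ : ℝ} (hμ : 0 ≤ μ) (hψm : Measurable ψ)
    (hψ0 : ∀ r, 0 < r → 0 ≤ ψ r) (hQm : Measurable Q) (hQ0 : ∀ r, 0 < r → 0 ≤ Q r)
    {x T : ℝ} (hx : 0 ≤ x) (hψx : ψ x = 0) (hQx : ∀ r, 0 < r → r < x → Q r = 0)
    (hT : Tail ψ Q μ x T) {ν : ℍ[ℝ]} {u : Pt → ℂ}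
    (hu : ContDiffOn ℝ 1 u UH) {B : ℝ} (hB : ∀ p ∈ UH, ‖u p‖ ≤ B)
    (hW : ∀ r : ℝ, 0 < r → ENNReal.ofReal μ * cellInt ν (fun p => ENNReal.ofReal (‖u p‖ ^ 2)) r
      ≤ cellInt ν (fun p => ENNReal.ofReal (∑ k : Fin 4, ‖pd (dir k.castSucc) u p‖ ^ 2)) r) :
    ∫⁻ r in Set.Ioi (0 : ℝ), ENNReal.ofReal (Q r) *
        cellInt ν (fun p => ENNReal.ofReal (‖u p‖ ^ 2)) r * ENNReal.ofReal ((r ^ 5)⁻¹)
      ≤ ∫⁻ r in Set.Ioi (0 : ℝ), ENNReal.ofReal (ψ r) *
        cellInt ν (fun p => ENNReal.ofReal (gsq u p)) r * ENNReal.ofReal ((r ^ 5)⁻¹) := by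
  have hfd : ContinuousOn (fderiv ℝ u) UH := hu.continuousOn_fderiv_of_isOpen isOpen_UH le_rfl
  have hpd : ∀ e : Pt, ContinuousOn (pd e u) UH := fun e =>
    hfd.clm_apply continuousOn_const
  set I4 : Set (Fin 4 → ℝ) := Icc 0 1 with hI4
  -- measurable extensions
  set S : Set (ℝ × (Fin 4 → ℝ)) := {x | 0 < x.1} with hS
  set A : ℝ × (Fin 4 → ℝ) → ℝ := S.indicator (fun x => ‖u (ph ν x)‖ ^ 2) with hA
  set D : ℝ × (Fin 4 → ℝ) → ℝ := S.indicator (fun x => ‖pd (dir 4) u (ph ν x)‖ ^ 2) with hD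
  have hAm : Measurable A := meas_ext (f := fun p => ‖u p‖ ^ 2) (hu.continuousOn.norm.pow 2)
  have hDm : Measurable D := meas_ext (f := fun p => ‖pd (dir 4) u p‖ ^ 2) ((hpd _).norm.pow 2)
  have hw : Measurable (fun r : ℝ => (r ^ 5)⁻¹) := by fun_prop
  set FL : ℝ × (Fin 4 → ℝ) → ENNReal := fun x => ENNReal.ofReal (Q x.1) *
    ENNReal.ofReal ((x.1 ^ 5)⁻¹) * ENNReal.ofReal (A x) with hFL
  set FR : ℝ × (Fin 4 → ℝ) → ENNReal := fun x => ENNReal.ofReal (ψ x.1) *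
    ENNReal.ofReal ((x.1 ^ 5)⁻¹) * (ENNReal.ofReal (x.1 ^ 2) *
      (ENNReal.ofReal (D x) + ENNReal.ofReal μ * ENNReal.ofReal (A x))) with hFR
  have hFLm : Measurable FL :=
    ((ENNReal.measurable_ofReal.comp (hQm.comp measurable_fst)).mul
      (ENNReal.measurable_ofReal.comp (hw.comp measurable_fst))).mul
        (ENNReal.measurable_ofReal.comp hAm)
  have hFRm : Measurable FR :=
    ((ENNReal.measurable_ofReal.comp (hψm.comp measurable_fst)).mul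
      (ENNReal.measurable_ofReal.comp (hw.comp measurable_fst))).mul
        ((ENNReal.measurable_ofReal.comp ((measurable_fst.pow_const 2))).mul
          ((ENNReal.measurable_ofReal.comp hDm).add
            ((ENNReal.measurable_ofReal.comp hAm).const_mul _)))
  -- left side
  have hL : ∫⁻ r in Set.Ioi (0 : ℝ), ENNReal.ofReal (Q r) *
        cellInt ν (fun p => ENNReal.ofReal (‖u p‖ ^ 2)) r * ENNReal.ofReal ((r ^ 5)⁻¹) =
      ∫⁻ r in Ioi (0:ℝ), ∫⁻ s in I4, FL (r, s) := by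
    apply setLIntegral_congr_fun measurableSet_Ioi
    intro r hr
    have hr0 : 0 < r := hr
    have e1 : ∀ s : Fin 4 → ℝ, FL (r, s) = (ENNReal.ofReal (Q r) * ENNReal.ofReal ((r ^ 5)⁻¹)) *
        ENNReal.ofReal (‖u (ν * par s, r)‖ ^ 2) := by
      intro s
      have hmem : ((r, s) : ℝ × (Fin 4 → ℝ)) ∈ S := hr0
      simp only [hFL, hA, indicator_of_mem hmem, ph]
    simp only [cellInt]
    simp_rw [e1]
    have hne : ENNReal.ofReal (Q r) * ENNReal.ofReal ((r ^ 5)⁻¹) ≠ ⊤ :=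
      ENNReal.mul_ne_top ENNReal.ofReal_ne_top ENNReal.ofReal_ne_top
    simp_rw [lintegral_const_mul' _ _ hne]
    ring
  rw [hL, lintegral_lintegral_swap (f := fun r s => FL (r, s)) hFLm.aemeasurable]
  -- the pointwise inequality
  have hpt : ∀ s : Fin 4 → ℝ,
      ∫⁻ r in Ioi (0:ℝ), FL (r, s) ≤ ∫⁻ r in Ioi (0:ℝ), FR (r, s) := by
    intro s
    set z : ℍ[ℝ] := ν * par s with hz
    have hg : ∀ r, 0 < r → HasDerivAt (fun r => u (z, r)) (pd (dir 4) u (z, r)) r := by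
      intro r hr
      have hd : DifferentiableAt ℝ u (z, r) :=
        (hu.contDiffAt (isOpen_UH.mem_nhds hr)).differentiableAt one_ne_zero
      have h1 : HasDerivAt (fun r : ℝ => ((z, r) : Pt)) ((0 : ℍ[ℝ]), (1 : ℝ)) r :=
        (hasDerivAt_const r z).prodMk (hasDerivAt_id r)
      have h2 := hd.hasFDerivAt.comp_hasDerivAt r h1
      unfold pd
      rw [dir_four]
      exact h2
    have hgc : ContinuousOn (fun r => pd (dir 4) u (z, r)) (Ioi 0) :=
      (hpd _).comp (by fun_prop) (fun r hr => hr)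
    have hmain := oneD_of_tail (g := fun r => u (z, r)) (g' := fun r => pd (dir 4) u (z, r))
      (B := B) hx hψx hQx hT hg hgc (fun r hr => hB _ hr)
    have eL : ∫⁻ r in Ioi (0:ℝ), FL (r, s) =
        ∫⁻ r in Ioi (0:ℝ), ENNReal.ofReal (gL Q (fun r => u (z, r)) r) := by
      apply setLIntegral_congr_fun measurableSet_Ioi
      intro r hr
      have hr0 : 0 < r := hr
      have hmem : ((r, s) : ℝ × (Fin 4 → ℝ)) ∈ S := hr0
      have h1 := hQ0 r hr0
      simp only [hFL, hA, indicator_of_mem hmem, ph, gL]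
      rw [ENNReal.ofReal_mul (by positivity), ENNReal.ofReal_mul h1]
    have eR : ∫⁻ r in Ioi (0:ℝ), FR (r, s) =
        ∫⁻ r in Ioi (0:ℝ), ENNReal.ofReal (gR ψ μ (fun r => u (z, r))
          (fun r => pd (dir 4) u (z, r)) r) := by
      apply setLIntegral_congr_fun measurableSet_Ioi
      intro r hr
      have hr0 : 0 < r := hr
      have hmem : ((r, s) : ℝ × (Fin 4 → ℝ)) ∈ S := hr0
      have h1 := hψ0 r hr0
      simp only [hFR, hA, hD, indicator_of_mem hmem, ph, gR]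
      rw [ENNReal.ofReal_mul (by positivity), ENNReal.ofReal_mul h1,
        ENNReal.ofReal_mul (by positivity), ENNReal.ofReal_add (by positivity) (by positivity),
        ENNReal.ofReal_mul hμ]
    rw [eL, eR]
    exact hmain
  have hmid : ∫⁻ s in I4, ∫⁻ r in Ioi (0:ℝ), FL (r, s) ≤
      ∫⁻ s in I4, ∫⁻ r in Ioi (0:ℝ), FR (r, s) :=
    lintegral_mono fun s => hpt s
  refine hmid.trans ?_
  rw [← lintegral_lintegral_swap (f := fun r s => FR (r, s)) hFRm.aemeasurable]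
  apply setLIntegral_mono' measurableSet_Ioi
  intro r hr
  have hr0 : 0 < r := hr
  set α := ENNReal.ofReal (ψ r) * ENNReal.ofReal ((r ^ 5)⁻¹) with hα
  have hαne : α ≠ ⊤ := ENNReal.mul_ne_top ENNReal.ofReal_ne_top ENNReal.ofReal_ne_top
  have hAr : ∀ s : Fin 4 → ℝ, A (r, s) = ‖u (ν * par s, r)‖ ^ 2 := by
    intro s
    have hmem : ((r, s) : ℝ × (Fin 4 → ℝ)) ∈ S := hr0
    simp only [hA, indicator_of_mem hmem, ph]
  have hDr : ∀ s : Fin 4 → ℝ, D (r, s) = ‖pd (dir 4) u (ν * par s, r)‖ ^ 2 := by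
    intro s
    have hmem : ((r, s) : ℝ × (Fin 4 → ℝ)) ∈ S := hr0
    simp only [hD, indicator_of_mem hmem, ph]
  have hDm1 : Measurable (fun s : Fin 4 → ℝ => ENNReal.ofReal (D (r, s))) :=
    ENNReal.measurable_ofReal.comp (hDm.comp (by fun_prop))
  have f1 : ∫⁻ s in I4, FR (r, s) =
      α * (ENNReal.ofReal (r ^ 2) *
        (cellInt ν (fun p => ENNReal.ofReal (‖pd (dir 4) u p‖ ^ 2)) r +
          ENNReal.ofReal μ * cellInt ν (fun p => ENNReal.ofReal (‖u p‖ ^ 2)) r)) := by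
    have h1 : ∫⁻ s in I4, FR (r, s) = α * (ENNReal.ofReal (r ^ 2) *
        ((∫⁻ s in I4, ENNReal.ofReal (D (r, s))) +
          ENNReal.ofReal μ * ∫⁻ s in I4, ENNReal.ofReal (A (r, s)))) := by
      rw [← lintegral_const_mul' _ _ ENNReal.ofReal_ne_top, ← lintegral_add_left hDm1,
        ← lintegral_const_mul' _ _ ENNReal.ofReal_ne_top, ← lintegral_const_mul' _ _ hαne]
    rw [h1]
    simp_rw [hAr, hDr]
    rfl
  rw [f1]
  have f2 : ENNReal.ofReal (r ^ 2) *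
        (cellInt ν (fun p => ENNReal.ofReal (‖pd (dir 4) u p‖ ^ 2)) r +
          ENNReal.ofReal μ * cellInt ν (fun p => ENNReal.ofReal (‖u p‖ ^ 2)) r) ≤
      cellInt ν (fun p => ENNReal.ofReal (gsq u p)) r := by
    have h1 : ENNReal.ofReal (r ^ 2) *
        (cellInt ν (fun p => ENNReal.ofReal (‖pd (dir 4) u p‖ ^ 2)) r +
          ENNReal.ofReal μ * cellInt ν (fun p => ENNReal.ofReal (‖u p‖ ^ 2)) r) ≤
        ENNReal.ofReal (r ^ 2) *
        (cellInt ν (fun p => ENNReal.ofReal (‖pd (dir 4) u p‖ ^ 2)) r +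
          cellInt ν (fun p => ENNReal.ofReal (∑ k : Fin 4, ‖pd (dir k.castSucc) u p‖ ^ 2)) r) := by
      gcongr
      exact hW r hr0
    refine h1.trans ?_
    unfold cellInt
    refine (mul_le_mul_right (le_lintegral_add _ _) _).trans ?_
    rw [← lintegral_const_mul' _ _ ENNReal.ofReal_ne_top]
    apply lintegral_mono
    intro s
    simp only
    rw [← ENNReal.ofReal_add (by positivity) (Finset.sum_nonneg fun _ _ => by positivity),
      ← ENNReal.ofReal_mul (by positivity)]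
    apply ENNReal.ofReal_le_ofReal
    unfold gsq
    apply le_of_eq
    rw [Fin.sum_univ_castSucc (n := 4)]
    have : Fin.last 4 = (4 : Fin 5) := rfl
    rw [this]
    ring
  calc α * (ENNReal.ofReal (r ^ 2) *
        (cellInt ν (fun p => ENNReal.ofReal (‖pd (dir 4) u p‖ ^ 2)) r +
          ENNReal.ofReal μ * cellInt ν (fun p => ENNReal.ofReal (‖u p‖ ^ 2)) r))
      ≤ α * cellInt ν (fun p => ENNReal.ofReal (gsq u p)) r := by gcongr
    _ = ENNReal.ofReal (ψ r) * cellInt ν (fun p => ENNReal.ofReal (gsq u p)) r *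
        ENNReal.ofReal ((r ^ 5)⁻¹) := by rw [hα]; ring

end

end Pool.Agent.Helper47.Ram5
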